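import Pool.Agent.Y520.NP.Stm
import Pool.Agent.Y677.RSZ.Stm

/-!
# Job 1300 (NP-NAR): narrow progressions in dense sets of `n` with all `n + h` almost prime
-/

set_option autoImplicit false

open Finset

namespace Pool.Agent.Y960.NP

open Pool.Agent.Y677.RSZ Pool.Agent.Y520.NP
open Pool.Agent.TH423.SH (PS)

/-- Euler product lower bound -/
lemma log_le_euler (y : ℕ) : Real.log y ≤ ∏ p ∈ (y + 1).primesBelow, (1 - (p : ℝ)⁻¹)⁻¹ := by
  let f : ℕ →* ℝ :=
    { toFun := fun n => (n : ℝ)⁻¹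
      map_one' := by simp
      map_mul' := by intro a b; push_cast; rw [mul_inv] }
  have hf : ∀ n, f n = (n : ℝ)⁻¹ := fun n => rfl
  have h := (EulerProduct.summable_and_hasSum_smoothNumbers_prod_primesBelow_geometric (f := f)
    (by
      intro p hp
      rw [hf, norm_inv, RCLike.norm_natCast]
      have : (1 : ℝ) < p := by exact_mod_cast hp.one_lt
      exact inv_lt_one_of_one_lt₀ this) (y + 1)).2
  have hmem : ∀ n ∈ Finset.Icc 1 y, n ∈ Nat.smoothNumbers (y + 1) := by
    intro n hn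
    rw [Finset.mem_Icc] at hn
    rw [Nat.mem_smoothNumbers']
    intro p hp hpn
    have := Nat.le_of_dvd (by omega) hpn
    omega
  classical
  have h2 := sum_le_hasSum ((Finset.Icc 1 y).subtype (· ∈ Nat.smoothNumbers (y + 1)))
    (fun i _ => by rw [hf]; positivity) h
  rw [Finset.sum_subtype_of_mem (fun n => f n) hmem] at h2
  have h3 : Real.log ((y + 1 : ℕ) : ℝ) ≤ ∑ n ∈ Finset.Icc 1 y, f n := by
    have := log_add_one_le_harmonic y
    rw [harmonic_eq_sum_Icc] at this
    push_cast at this ⊢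
    simpa [hf] using this
  have h4 : Real.log (y : ℝ) ≤ Real.log ((y + 1 : ℕ) : ℝ) := by
    rcases Nat.eq_zero_or_pos y with rfl | hy
    · simp
    · exact Real.log_le_log (by exact_mod_cast hy) (by push_cast; linarith)
  exact h4.trans (h3.trans h2)

lemma PS_one (y : ℕ) : PS 1 y = (y + 1).primesBelow := by
  ext p
  unfold PS
  rw [mem_filter, mem_Icc, Nat.mem_primesBelow]
  constructor
  · rintro ⟨⟨_, h1⟩, h2, _⟩
    exact ⟨by omega, h2⟩
  · rintro ⟨h1, h2⟩
    exact ⟨⟨h2.one_le, by omega⟩, h2, fun h => h2.one_lt.ne' (Nat.dvd_one.1 h)⟩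

lemma mert (y : ℕ) (hy : 2 ≤ y) : ∏ p ∈ PS 1 y, (1 - 1 / (p : ℝ)) ≤ 1 / Real.log y := by
  have h1 := log_le_euler y
  rw [prod_inv_distrib] at h1
  have h2 : ∏ p ∈ (y + 1).primesBelow, (1 - (p : ℝ)⁻¹) = ∏ p ∈ PS 1 y, (1 - 1 / (p : ℝ)) := by
    rw [PS_one]
    exact prod_congr rfl fun p _ => by rw [one_div]
  rw [h2] at h1
  have hpos : 0 < ∏ p ∈ PS 1 y, (1 - 1 / (p : ℝ)) := by
    refine prod_pos fun p hp => ?_
    unfold PS at hp
    rw [mem_filter] at hp
    have h3 : (1 : ℝ) < p := by exact_mod_cast hp.2.1.one_lt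
    rw [sub_pos, div_lt_one (by linarith)]
    exact h3
  have hlog : 0 < Real.log y := Real.log_pos (by exact_mod_cast (by omega : 1 < y))
  rw [one_div]
  exact le_inv_of_le_inv₀ hlog h1

section

variable (Hs : Finset ℕ)

/-- the polynomial `∏ (n + h)` -/
def FH (n : ℤ) : ℤ := ∏ h ∈ Hs, (n + h)

lemma FH_dvd {p : ℕ} (hp : p.Prime) (n : ℤ) : (p : ℤ) ∣ FH Hs n ↔ ∃ h ∈ Hs, (p : ℤ) ∣ n + h := by
  unfold FH
  exact (Nat.prime_iff_prime_int.1 hp).dvd_finsetProd_iff _

lemma FH_per (p : ℕ) (_hp : p.Prime) (n : ℤ) : (p : ℤ) ∣ FH Hs (n + p) - FH Hs n := by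
  unfold FH
  induction Hs using Finset.induction_on with
  | empty => simp
  | insert a s ha ih =>
    rw [prod_insert ha, prod_insert ha]
    obtain ⟨c, hc⟩ := ih
    refine ⟨(n + a) * c + ∏ h ∈ s, (n + p + h), ?_⟩
    linear_combination (n + a) * hc

/-- the bound for the supremum -/
lemma le_sup {h : ℕ} (hh : h ∈ Hs) : h ≤ Hs.sup id := Finset.le_sup (f := id) hh

lemma rt_le (p : ℕ) (hp : p.Prime) : rt (FH Hs) p ≤ Hs.card := by
  classical
  unfold rt
  have h1 : (range p).filter (fun r : ℕ => (p : ℤ) ∣ FH Hs r) ⊆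
      Hs.biUnion fun h => (range p).filter (fun r : ℕ => (p : ℤ) ∣ (r : ℤ) + h) := by
    intro r hr
    rw [mem_filter, FH_dvd Hs hp] at hr
    obtain ⟨h0, h, hh, hd⟩ := hr
    exact mem_biUnion.2 ⟨h, hh, mem_filter.2 ⟨h0, hd⟩⟩
  refine (card_le_card h1).trans ((card_biUnion_le).trans ?_)
  calc ∑ h ∈ Hs, ((range p).filter (fun r : ℕ => (p : ℤ) ∣ (r : ℤ) + h)).card ≤ ∑ _h ∈ Hs, 1 := by
        refine sum_le_sum fun h _ => ?_
        rw [card_le_one]
        intro r hr r' hr'
        rw [mem_filter, mem_range] at hr hr'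
        have h2 : (p : ℤ) ∣ (r : ℤ) - r' := by
          have := dvd_sub hr.2 hr'.2
          have e : (r : ℤ) + h - (r' + h) = (r : ℤ) - r' := by ring
          rwa [e] at this
        have h3 : (r : ℤ) - r' = 0 := by
          apply Int.eq_zero_of_abs_lt_dvd h2
          rw [abs_lt]
          constructor <;> omega
        omega
    _ = Hs.card := by simp

lemma rt_ge (p : ℕ) (hp : p.Prime) (hsup : Hs.sup id < p) : Hs.card ≤ rt (FH Hs) p := by
  classical
  unfold rt
  refine card_le_card_of_injOn (fun h => (p - h) % p) ?_ ?_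
  · intro h hh
    have h1 := le_sup Hs hh
    rw [mem_coe, mem_filter, mem_range, FH_dvd Hs hp]
    refine ⟨Nat.mod_lt _ hp.pos, h, hh, ?_⟩
    have h2 : p ∣ (p - h) % p + h := by
      rw [Nat.dvd_iff_mod_eq_zero, Nat.mod_add_mod, Nat.sub_add_cancel (by omega), Nat.mod_self]
    exact_mod_cast h2
  · intro h hh h' hh' heq
    have h1 := le_sup Hs hh
    have h2 := le_sup Hs hh'
    dsimp only at heq
    rcases Nat.eq_zero_or_pos h with h0 | h0
    · rcases Nat.eq_zero_or_pos h' with h0' | h0'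
      · omega
      · rw [h0, Nat.sub_zero, Nat.mod_self, Nat.mod_eq_of_lt (by omega)] at heq
        omega
    · rcases Nat.eq_zero_or_pos h' with h0' | h0'
      · rw [h0', Nat.sub_zero, Nat.mod_self, Nat.mod_eq_of_lt (by omega)] at heq
        omega
      · rw [Nat.mod_eq_of_lt (by omega), Nat.mod_eq_of_lt (by omega)] at heq
        omega

/-- the exponent -/
def gH : ℕ := 2 * Hs.card ^ 2 + 2 * Hs.card + Hs.sup id + 2

theorem sysH (hadm : ∀ p : ℕ, p.Prime → ∃ n : ℤ, ¬ (p : ℤ) ∣ FH Hs n) : Sys (gH Hs) (FH Hs) := by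
  classical
  refine ⟨FH_per Hs, fun p hp => ⟨(rt_le Hs p hp).trans (by unfold gH; omega), ?_⟩, ?_⟩
  · obtain ⟨n, hn⟩ := hadm p hp
    have hp0 : (0 : ℤ) < p := by exact_mod_cast hp.pos
    have hr0 : 0 ≤ n % p := Int.emod_nonneg _ hp0.ne'
    have hr1 : n % p < p := Int.emod_lt_of_pos _ hp0
    obtain ⟨r, hr⟩ := Int.eq_ofNat_of_zero_le hr0
    have h1 : ¬ (p : ℤ) ∣ FH Hs (r : ℕ) := by
      rw [FH_dvd Hs hp] at hn ⊢
      rintro ⟨h, hh, hd⟩
      apply hn
      refine ⟨h, hh, ?_⟩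
      have h2 : n = n % p + p * (n / p) := (Int.emod_add_mul_ediv n p).symm
      rw [h2, hr]
      have h3 : (r : ℤ) + p * (n / p) + h = ((r : ℤ) + h) + p * (n / p) := by ring
      rw [h3]
      exact dvd_add hd (dvd_mul_right _ _)
    unfold rt
    have h4 : (range p).filter (fun r : ℕ => (p : ℤ) ∣ FH Hs r) ⊂ range p := by
      refine (ssubset_iff_of_subset (filter_subset _ _)).2 ⟨r, ?_, ?_⟩
      · rw [mem_range]
        omega
      · rw [mem_filter]
        rintro ⟨_, h⟩
        exact h1 h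
    have h5 := card_lt_card h4
    rwa [card_range] at h5
  · refine ⟨fun d => ∏ q ∈ Hs ×ˢ Hs, ((d : ℤ) + q.2 - q.1).natAbs, fun d hd => ⟨?_, ?_, ?_⟩⟩
    · rw [Nat.one_le_iff_ne_zero, prod_ne_zero_iff]
      intro q hq
      rw [mem_product] at hq
      have h1 := le_sup Hs hq.1
      unfold gH at hd
      rw [Int.natAbs_ne_zero]
      omega
    · have hd2 : 2 ≤ d := by unfold gH at hd; omega
      calc ∏ q ∈ Hs ×ˢ Hs, ((d : ℤ) + q.2 - q.1).natAbs ≤ ∏ _q ∈ Hs ×ˢ Hs, d ^ 2 := by
            refine prod_le_prod' fun q hq => ?_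
            rw [mem_product] at hq
            have h1 := le_sup Hs hq.1
            have h2 := le_sup Hs hq.2
            unfold gH at hd
            have h3 : ((d : ℤ) + q.2 - q.1).natAbs ≤ 2 * d := by omega
            nlinarith
        _ = d ^ (2 * Hs.card ^ 2) := by
            rw [prod_const, card_product, ← pow_mul]
            ring_nf
        _ ≤ d ^ gH Hs := Nat.pow_le_pow_right (by omega) (by unfold gH; omega)
    · intro p hp n h1 h2
      rw [FH_dvd Hs hp] at h1 h2
      obtain ⟨a, ha, h1⟩ := h1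
      obtain ⟨b, hb, h2⟩ := h2
      refine Dvd.dvd.trans ?_ (dvd_prod_of_mem (fun q : ℕ × ℕ => ((d : ℤ) + q.2 - q.1).natAbs)
        (show (a, b) ∈ Hs ×ˢ Hs from mem_product.2 ⟨ha, hb⟩))
      rw [← Int.natCast_dvd_natCast, Int.dvd_natAbs]
      have h3 := dvd_sub h2 h1
      have e : n + (d : ℕ) + b - (n + a) = (d : ℤ) + b - a := by ring
      rwa [e] at h3

/-- the sieve product -/
theorem V_le (y : ℕ) (hy : 2 ≤ y) :
    V (FH Hs) 1 y ≤ 2 ^ (Hs.card * (Hs.sup id + 1)) / Real.log y ^ Hs.card := by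
  classical
  have hlog : 0 < Real.log y := Real.log_pos (by exact_mod_cast (by omega : 1 < y))
  have hm := mert y hy
  unfold V
  set S := PS 1 y with hS
  have hSp : ∀ p ∈ S, p.Prime := by
    intro p hp
    rw [hS, PS, mem_filter] at hp
    exact hp.2.1
  have hpp : ∀ p ∈ S, 0 < 1 - 1 / (p : ℝ) := by
    intro p hp
    have h3 : (1 : ℝ) < p := by exact_mod_cast (hSp p hp).one_lt
    rw [sub_pos, div_lt_one (by linarith)]
    exact h3
  have h1 : ∏ p ∈ S, (1 - (rt (FH Hs) p : ℝ) / p) ≤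
      ∏ p ∈ S, ((if p ≤ Hs.sup id then (2 : ℝ) ^ Hs.card else 1) * (1 - 1 / (p : ℝ)) ^ Hs.card) := by
    refine prod_le_prod (fun p hp => ?_) fun p hp => ?_
    · have h2 : rt (FH Hs) p ≤ p := by
        unfold rt
        exact (card_filter_le _ _).trans (card_range p).le
      have h3 : (0 : ℝ) < p := by exact_mod_cast (hSp p hp).pos
      rw [sub_nonneg, div_le_one h3]
      exact_mod_cast h2
    · have hp2 : (2 : ℝ) ≤ p := by exact_mod_cast (hSp p hp).two_le
      have h3 : (0 : ℝ) < p := by linarith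
      split_ifs with h
      · have h4 : (1 : ℝ) ≤ 2 * (1 - 1 / (p : ℝ)) := by
          have : 1 / (p : ℝ) ≤ 1 / 2 := one_div_le_one_div_of_le (by norm_num) hp2
          linarith
        calc 1 - (rt (FH Hs) p : ℝ) / p ≤ 1 := by
              have : 0 ≤ (rt (FH Hs) p : ℝ) / p := by positivity
              linarith
          _ ≤ (2 * (1 - 1 / (p : ℝ))) ^ Hs.card := one_le_pow₀ h4
          _ = _ := mul_pow _ _ _
      · rw [one_mul]
        have h4 := rt_ge Hs p (hSp p hp) (not_le.1 h)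
        have h5 : (Hs.card : ℝ) ≤ rt (FH Hs) p := by exact_mod_cast h4
        have h6 := one_add_mul_le_pow (a := -(1 / (p : ℝ))) (by
          have : 1 / (p : ℝ) ≤ 1 / 2 := one_div_le_one_div_of_le (by norm_num) hp2
          linarith) Hs.card
        calc 1 - (rt (FH Hs) p : ℝ) / p ≤ 1 - (Hs.card : ℝ) / p := by
              have := div_le_div_of_nonneg_right h5 h3.le
              linarith
          _ = 1 + (Hs.card : ℝ) * -(1 / (p : ℝ)) := by ring
          _ ≤ _ := h6
  refine h1.trans ?_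
  rw [prod_mul_distrib, prod_pow, prod_ite, prod_const_one, mul_one, prod_const, ← pow_mul]
  have h2 : (S.filter fun p => p ≤ Hs.sup id).card ≤ Hs.sup id + 1 := by
    calc (S.filter fun p => p ≤ Hs.sup id).card ≤ (range (Hs.sup id + 1)).card := by
          refine card_le_card fun p hp => ?_
          rw [mem_filter] at hp
          rw [mem_range]
          omega
      _ = _ := card_range _
  have h3 : (2 : ℝ) ^ (Hs.card * (S.filter fun p => p ≤ Hs.sup id).card) ≤ 2 ^ (Hs.card * (Hs.sup id + 1)) :=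
    pow_le_pow_right₀ (by norm_num) (Nat.mul_le_mul_left _ h2)
  have h4 : (∏ p ∈ S, (1 - 1 / (p : ℝ))) ^ Hs.card ≤ (1 / Real.log y) ^ Hs.card :=
    pow_le_pow_left₀ (prod_nonneg fun p hp => (hpp p hp).le) hm _
  calc _ ≤ 2 ^ (Hs.card * (Hs.sup id + 1)) * (1 / Real.log y) ^ Hs.card :=
        mul_le_mul h3 h4 (pow_nonneg (prod_nonneg fun p hp => (hpp p hp).le) _) (by positivity)
    _ = _ := by rw [one_div, inv_pow, div_eq_mul_inv]

end

/-- (NAR) -/
theorem nar (h : S_ENG) : S_NAR := by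
  classical
  intro Hs k δ ε hδ hε
  by_cases hadm : ∀ p : ℕ, p.Prime → ∃ n : ℤ, ¬ (p : ℤ) ∣ FH Hs n
  · set CH : ℝ := 2 ^ (Hs.card * (Hs.sup id + 1)) with hCH
    have hCH0 : 0 < CH := by positivity
    obtain ⟨B, H₀, hB⟩ := h (max k 2) (gH Hs) (δ / 2) (ε / (3 * CH)) (le_max_right _ _) (by positivity)
      (by positivity)
    refine ⟨2 * B, max (max (H₀ : ℝ) ((Hs.sup id : ℕ) : ℝ)) (Real.exp 2 + 3), fun x hx A hA hAp hAc => ?_⟩
    have hx1 : (H₀ : ℝ) ≤ x := ((le_max_left _ _).trans (le_max_left _ _)).trans hx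
    have hx2 : ((Hs.sup id : ℕ) : ℝ) ≤ x := ((le_max_right _ _).trans (le_max_left _ _)).trans hx
    have hx3 : Real.exp 2 + 3 ≤ x := (le_max_right _ _).trans hx
    have hx4 : (3 : ℝ) ≤ x := by linarith [Real.exp_pos 2]
    have hx0 : 0 < x := by linarith
    have hlx : 2 ≤ Real.log x := by
      rw [Real.le_log_iff_exp_le hx0]
      linarith
    set Hp := ⌊3 * x⌋₊ with hHp
    have hHx : x ≤ Hp := by
      have := Nat.lt_floor_add_one (3 * x)
      rw [← hHp] at this
      linarith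
    have hHx' : (Hp : ℝ) ≤ 3 * x := Nat.floor_le (by linarith)
    have hHp2 : 3 ≤ Hp := by
      have : (3 : ℝ) ≤ Hp := by linarith
      exact_mod_cast this
    have hYH : ⌊x⌋₊ ≤ Hp := Nat.floor_le_floor (by linarith)
    have hsupH : Hs.sup id ≤ Hp := by
      have : ((Hs.sup id : ℕ) : ℝ) ≤ Hp := by linarith
      exact_mod_cast this
    have hlH : Real.log x ≤ Real.log Hp := Real.log_le_log hx0 hHx
    have hlH' : Real.log Hp ≤ Real.log x ^ 2 := by
      have h1 : Real.log Hp ≤ Real.log (x * x) :=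
        Real.log_le_log (by linarith) (hHx'.trans (by nlinarith))
      rw [Real.log_mul hx0.ne' hx0.ne'] at h1
      nlinarith
    obtain ⟨a, d, hd1, hd2, had⟩ := hB (FH Hs) ⌊x⌋₊ Hp A (sysH Hs hadm)
      (by
        have : (H₀ : ℝ) ≤ Hp := by linarith
        exact_mod_cast this)
      (by
        intro n hn
        rw [mem_Ioc] at hn
        have hn1 : 1 ≤ n := by omega
        have hpos : ∀ h ∈ Hs, (0 : ℤ) < (n : ℤ) + h := fun h _ => by omega
        have hF0 : 0 < FH Hs n := prod_pos hpos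
        refine ⟨hF0.ne', ?_⟩
        rw [abs_of_pos hF0]
        have h3 : (3 : ℤ) ≤ Hp := by exact_mod_cast hHp2
        calc FH Hs n ≤ ∏ _h ∈ Hs, (Hp : ℤ) ^ 2 := by
              refine prod_le_prod (fun h hh => (hpos h hh).le) fun h hh => ?_
              have h1 := le_sup Hs hh
              have h2 : (n : ℤ) + h ≤ 3 * Hp := by omega
              nlinarith
          _ = (Hp : ℤ) ^ (2 * Hs.card) := by rw [prod_const, ← pow_mul]
          _ ≤ _ := pow_le_pow_right₀ (by linarith) (by unfold gH; omega))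
      (by
        intro n hn
        obtain ⟨h1, h2⟩ := hA n hn
        rw [mem_Ioc]
        refine ⟨(Nat.floor_lt hx0.le).2 h1, ?_⟩
        have h3 : n ≤ Hp := Nat.le_floor h2
        omega)
      (by
        intro n hn p hp hpH hdvd
        rw [FH_dvd Hs hp] at hdvd
        obtain ⟨h, hh, hdv⟩ := hdvd
        have h1 : p ∣ n + h := by exact_mod_cast hdv
        have h2 := hAp n hn h hh p hp h1
        have h3 : (Hp : ℝ) ^ (δ / 2) ≤ x ^ δ := by
          calc (Hp : ℝ) ^ (δ / 2) ≤ (x * x) ^ (δ / 2) :=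
                Real.rpow_le_rpow (Nat.cast_nonneg _) (hHx'.trans (by nlinarith)) (by positivity)
            _ = x ^ δ := by
                rw [Real.mul_rpow hx0.le hx0.le, ← Real.rpow_add hx0]
                congr 1
                ring
        linarith)
      (by
        refine le_trans ?_ hAc
        have h1 := V_le Hs Hp (by omega)
        rw [← hCH] at h1
        have hlx0 : 0 < Real.log x := by linarith
        have h2 : CH / Real.log Hp ^ Hs.card ≤ CH / Real.log x ^ Hs.card :=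
          div_le_div_of_nonneg_left hCH0.le (by positivity) (pow_le_pow_left₀ hlx0.le hlH _)
        have h3 : (Hp : ℝ) * V (FH Hs) 1 Hp ≤ 3 * x * (CH / Real.log x ^ Hs.card) := by
          calc (Hp : ℝ) * V (FH Hs) 1 Hp ≤ Hp * (CH / Real.log x ^ Hs.card) :=
                mul_le_mul_of_nonneg_left (h1.trans h2) (Nat.cast_nonneg _)
            _ ≤ _ := mul_le_mul_of_nonneg_right hHx' (by positivity)
        calc ε / (3 * CH) * ((Hp : ℝ) * V (FH Hs) 1 Hp)
            ≤ ε / (3 * CH) * (3 * x * (CH / Real.log x ^ Hs.card)) :=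
              mul_le_mul_of_nonneg_left h3 (by positivity)
          _ = ε * x / Real.log x ^ Hs.card := by field_simp)
    refine ⟨a, d, hd1, hd2.trans ?_, fun j hj => had j (lt_of_lt_of_le hj (le_max_left _ _))⟩
    rw [pow_mul]
    exact pow_le_pow_left₀ (by linarith) hlH' _
  · push Not at hadm
    obtain ⟨p, hp, hall⟩ := hadm
    refine ⟨0, max ((p : ℝ) ^ (1 / δ)) 2, fun x hx A hA hAp hAc => ?_⟩
    exfalso
    have hx1 : (p : ℝ) ^ (1 / δ) ≤ x := (le_max_left _ _).trans hx
    have hx2 : (2 : ℝ) ≤ x := (le_max_right _ _).trans hx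
    have hlog : 0 < Real.log x := Real.log_pos (by linarith)
    have h1 : (p : ℝ) ≤ x ^ δ := by
      have h2 : ((p : ℝ) ^ (1 / δ)) ^ δ ≤ x ^ δ := Real.rpow_le_rpow (by positivity) hx1 hδ.le
      rwa [← Real.rpow_mul (Nat.cast_nonneg _), one_div, inv_mul_cancel₀ hδ.ne', Real.rpow_one] at h2
    have h2 : A = ∅ := by
      rw [eq_empty_iff_forall_notMem]
      intro n hn
      obtain ⟨h, hh, hd⟩ := (FH_dvd Hs hp n).1 (hall n)
      have h3 : p ∣ n + h := by exact_mod_cast hd
      have h4 := hAp n hn h hh p hp h3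
      linarith
    rw [h2, card_empty, Nat.cast_zero] at hAc
    have h3 : 0 < ε * x / Real.log x ^ Hs.card := by positivity
    linarith

end Pool.Agent.Y960.NP
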